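import Pool.Agent.Results.MP_c5e1a2_co.MarkovDegreeUnbounded
import Pool.Agent.Y359.TM.Fibre
import Pool.Agent.Y359.TM.Classes

set_option autoImplicit false

/-!
# Markov and Gröbner degrees of toric Markov chains without self-loops, all word lengths

For every `S ≥ 6` and every `T ≥ 4`, even or odd: every Markov basis contains a move of degree at
least `2 T - 1` (at least `3 (T - 1)` for even `T`), and, for every field and every monomial
order, every Gröbner basis of the toric ideal contains a polynomial of total degree at least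
`2 T - 1` (at least `3 (T - 1)` for even `T`).

Odd `T`: the digraph with the transitions `0 → 4`, `4 → 2`, `4 → 3`, `4 → 5`, `4 → 1`, `2 ⇄ 3`,
`1 ⇄ 5` has twelve walks with `T` vertices; with `s = (T - 1) / 2` the words `4 2 3 2 ...`,
`4 3 2 3 ...`, `0 4 5 1 ...`, `0 4 1 5 ...`, each `s` times, together with one word
`5 1 5 1 ...`, have the same transitions as `0 4 2 3 ...`, `0 4 3 2 ...`, `4 5 1 5 ...`,
`4 1 5 1 ...`, each `s` times, together with one word `2 3 2 3 ...`.  Up to the exchange of
`5 1 5 1 ...` and `1 5 1 5 ...` and of `2 3 2 3 ...` and `3 2 3 2 ...` the fibre has no other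
elements.
-/

namespace Pool.Agent.Results.MP_c5e1a2_co.AllWordLengths

open Pool.Agent.H609R3 MvPolynomial
open Pool.Agent.Results.MP_c5e1a2_co.GroebnerDegreeUnbounded (toricIdeal IsGroebnerBasis)

universe x

/-- Markov and Gröbner degrees for all `S ≥ 6` and all `T ≥ 4`. -/
theorem result (S T : ℕ) (hS : 6 ≤ S) (hT : 4 ≤ T) :
    (∀ M : Set (Word S T → ℤ), IsMarkovBasis S T M →
      ∃ z ∈ M, (if Even T then 3 * (T - 1) else 2 * T - 1) ≤ moveDegree z) ∧
    (∀ (k : Type x) [Field k] (m : MonomialOrder (Word S T)) (G : Set (MvPolynomial (Word S T) k)),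
      IsGroebnerBasis m (toricIdeal k S T) G →
      ∃ g ∈ G, (if Even T then 3 * (T - 1) else 2 * T - 1) ≤ g.totalDegree) := by
  by_cases hE : Even T
  · simp only [if_pos hE]
    exact ⟨fun M hM => MarkovDegreeUnbounded.result S T hS hT hE M hM,
      fun k _ m G hG => GroebnerDegreeUnbounded.result k S T hS hT hE m G hG⟩
  · simp only [if_neg hE]
    obtain ⟨K, rfl⟩ : ∃ K, T = 2 * K + 5 := by
      rw [Nat.not_even_iff_odd] at hE
      obtain ⟨r, hr⟩ := hE
      exact ⟨r - 2, by omega⟩
    have e : 2 * (2 * K + 5) - 1 = 4 * K + 9 := by omega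
    rw [e]
    obtain ⟨A, B, u, v, hA, hB, hvu, hcl, sA, sB, hd⟩ := Pool.Agent.Y359.TM.summary hS K
    exact ⟨fun M hM => Pool.Agent.Y359.TM.markov_of_classes A B u v hA hB hvu hcl sA sB hd
        (by omega) M hM,
      fun k _ m G hG => Pool.Agent.Y359.TM.groebner_of_classes A B u v hA hB hvu hcl sA sB hd
        (by omega) k m G hG⟩

end Pool.Agent.Results.MP_c5e1a2_co.AllWordLengths
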