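import Pool.Agent.Results.MP_c5e1a2_co.MarkovDegreeUnbounded
import Pool.Agent.Y359.TM.EvFin
import Pool.Agent.Y359.TM.Classes

set_option autoImplicit false

/-!
# Markov and Gröbner degrees for words of even length over any number of letters

For every even `T ≥ 4` and every `S ≥ 6` put `D = (2 m + 3) (T - 1)`, where `m = 0` for
`S < 3 T - 2` and `m = ⌊(S - (2 T - 1)) / (T - 1)⌋` otherwise.  Every Markov basis contains a move
of degree at least `D`, and for every field and every monomial order every Gröbner basis of the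
toric ideal contains a polynomial of total degree at least `D`; moreover `D ≥ S`, and `D > S`
unless `S = 3 (T - 1)`.

The digraph: letters `z`, `c`, `x_i` (`0 ≤ i ≤ m`), `A_j`, `B_j` (`0 ≤ j ≤ m + 1`) and, for
`0 < j < m + 1`, a path from `B_j` through `T - 4` further letters to `c`; transitions `z → x_i`,
`x_i → A_i`, `x_i → A_{i+1}`, `A_j → B_j`, those of the paths, `B_0 → A_0`, `B_{m+1} → A_{m+1}`.
It has `4 (m + 1) + 4` walks with `T` vertices and the words which start in `x_i` and turn left or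
start in `z` and turn right at `x_i`, `T - 1` times each, together with `(T - 2) / 2` words
`A_0 B_0 ...` and `T / 2` words `B_{m+1} A_{m+1} ...`, form a fibre of two elements.
-/

namespace Pool.Agent.Results.MP_c5e1a2_co.EvenWordsAllAlphabets

open Pool.Agent.H609R3 MvPolynomial
open Pool.Agent.Results.MP_c5e1a2_co.GroebnerDegreeUnbounded (toricIdeal IsGroebnerBasis)

universe x

/-- the lower bound for the degrees -/
def D (S T : ℕ) : ℕ := (2 * ((S - (2 * T - 1)) / (T - 1)) + 3) * (T - 1)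

/-- For all `S ≥ 6` and all even `T ≥ 4` the Markov and Gröbner degrees are at least `D S T`,
which is at least `S`, and larger than `S` unless `S = 3 (T - 1)`. -/
theorem result (S T : ℕ) (hS : 6 ≤ S) (hT : 4 ≤ T) (hE : Even T) :
    S ≤ D S T ∧ (S ≠ 3 * (T - 1) → S < D S T) ∧
    (∀ M : Set (Word S T → ℤ), IsMarkovBasis S T M → ∃ z ∈ M, D S T ≤ moveDegree z) ∧
    (∀ (k : Type x) [Field k] (m : MonomialOrder (Word S T)) (G : Set (MvPolynomial (Word S T) k)),
      IsGroebnerBasis m (toricIdeal k S T) G → ∃ g ∈ G, D S T ≤ g.totalDegree) := by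
  obtain ⟨K, rfl⟩ : ∃ K, T = 2 * K + 4 := by
    obtain ⟨r, hr⟩ := hE
    exact ⟨r - 2, by omega⟩
  obtain ⟨m, hm⟩ : ∃ m, (S - (2 * (2 * K + 4) - 1)) / (2 * K + 4 - 1) = m := ⟨_, rfl⟩
  have hD : D S (2 * K + 4) = (2 * m + 3) * (2 * K + 3) := by
    unfold D
    rw [hm]
    rfl
  have e1 : 2 * K + 4 - 1 = 2 * K + 3 := by omega
  rw [e1] at hm
  have hlt : S - (2 * (2 * K + 4) - 1) < (2 * K + 3) * (m + 1) := by
    rw [← hm]
    exact Nat.lt_mul_div_succ _ (by omega)
  have hge : (2 * K + 3) * m ≤ S - (2 * (2 * K + 4) - 1) := by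
    rw [← hm]
    exact Nat.mul_div_le _ _
  rw [Nat.mul_add (2 * K + 3) m 1, Nat.mul_one] at hlt
  have hDe : (2 * m + 3) * (2 * K + 3) = 2 * ((2 * K + 3) * m) + 3 * (2 * K + 3) := by ring
  rw [hD, hDe, e1]
  refine ⟨by omega, ?_, ?_⟩
  · intro hne
    rcases Nat.eq_zero_or_pos m with h0 | h0
    · subst h0
      simp only [Nat.mul_zero] at *
      omega
    · have : 2 * K + 3 ≤ (2 * K + 3) * m := Nat.le_mul_of_pos_right _ h0
      omega
  rcases Nat.eq_zero_or_pos m with h0 | h0
  · subst h0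
    refine ⟨fun M hM => ?_, fun k _ mo G hG => ?_⟩
    · obtain ⟨z, hz, h⟩ := MarkovDegreeUnbounded.result S (2 * K + 4) hS hT hE M hM
      exact ⟨z, hz, by omega⟩
    · obtain ⟨g, hg, h⟩ := GroebnerDegreeUnbounded.result k S (2 * K + 4) hS hT hE mo G hG
      exact ⟨g, hg, by omega⟩
  · have h1 : 2 * K + 3 ≤ (2 * K + 3) * m := Nat.le_mul_of_pos_right _ h0
    have h2 : 3 * m + 7 + (2 * K) * (m + 2) = (2 * K + 3) * m + (4 * K + 7) := by ring
    obtain ⟨A, B, u, v, hA, hB, hvu, hcl, sA, sB, hd⟩ :=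
      Pool.Agent.Y359.TM.Ev.summary (m := m) (K := K) (S := S) (by rw [h2]; omega)
    rw [← hDe]
    have hpos : 0 < (2 * m + 3) * (2 * K + 3) := by positivity
    exact ⟨fun M hM => Pool.Agent.Y359.TM.markov_of_classes A B u v hA hB hvu hcl sA sB hd
        hpos M hM,
      fun k _ mo G hG => Pool.Agent.Y359.TM.groebner_of_classes A B u v hA hB hvu hcl sA sB hd
        hpos k mo G hG⟩

end Pool.Agent.Results.MP_c5e1a2_co.EvenWordsAllAlphabets
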